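import Pool.Agent.helper35.MR.SpecA

/-!
# Project mr (MP_b48e27), module R2: slices in one direction
-/

set_option autoImplicit false

open Finset

namespace Pool.Agent.helper35.MR

open Pool.Agent.RRank

section
variable {K : Type} [Field K] {Q : Fin 3 → Type}

lemma R2_rank1 (α₀ : Fin 3) {t : ((α : Fin 3) → Q α) → K} (h : RankLEOne (slicesOf {α₀}) t) :
    ∃ (f : Q α₀ → K) (g : ((α : Fin 3) → Q α) → K),
      DependsOn g ({β | β ≠ α₀} : Set (Fin 3)) ∧ ∀ x, t x = f (x α₀) * g x := by
  classical
  obtain ⟨P, ⟨_, α, hα, hmem⟩, b, hb, ht⟩ := rankLEOne_iff.1 h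
  rw [Finset.mem_singleton] at hα
  subst hα
  by_cases hne : Nonempty ((α : Fin 3) → Q α)
  · obtain ⟨x₀⟩ := hne
    refine ⟨fun q => b {α} (Function.update x₀ α q), fun x => ∏ J ∈ P.parts.erase {α}, b J x, ?_, ?_⟩
    · intro x y hxy
      refine Finset.prod_congr rfl fun J hJ => ?_
      apply hb J (Finset.mem_of_mem_erase hJ)
      intro β hβ
      apply hxy
      show β ≠ α
      rintro rfl
      exact (Finset.disjoint_left.1 (P.disjoint (Finset.mem_of_mem_erase hJ) hmem
        (Finset.ne_of_mem_erase hJ))) (by exact_mod_cast hβ) (Finset.mem_singleton_self _)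
    · intro x
      rw [ht, ← Finset.mul_prod_erase _ _ hmem]
      congr 1
      apply hb {α} hmem
      intro β hβ
      rw [Finset.coe_singleton, Set.mem_singleton_iff] at hβ
      subst hβ
      rw [Function.update_self]
  · exact ⟨fun _ => 0, fun _ => 0, fun _ _ _ => rfl, fun x => (hne ⟨x⟩).elim⟩

lemma R2_rank1' (α₀ : Fin 3) (f : Q α₀ → K) (g : ((α : Fin 3) → Q α) → K)
    (hg : DependsOn g ({β | β ≠ α₀} : Set (Fin 3))) :
    RankLEOne (slicesOf {α₀}) (fun x => f (x α₀) * g x) := by
  classical
  have h1 : ({α₀} : Finset (Fin 3)).Nonempty := ⟨α₀, Finset.mem_singleton_self _⟩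
  have h2 : (({α₀} : Finset (Fin 3))ᶜ).Nonempty := by
    have h3 : ∀ α : Fin 3, α + 1 ≠ α := by decide
    refine ⟨α₀ + 1, ?_⟩
    rw [Finset.mem_compl, Finset.mem_singleton]
    exact h3 α₀
  refine rankLEOne_iff.2 ⟨pairPartition {α₀} h1 h2, ⟨pairPartition_mem _ h1 h2, α₀,
    Finset.mem_singleton_self _, ?_⟩, fun J x => if J = {α₀} then f (x α₀) else g x, ?_, ?_⟩
  · show {α₀} ∈ ({{α₀}, {α₀}ᶜ} : Finset (Finset (Fin 3)))
    exact Finset.mem_insert_self _ _
  · intro J hJ x y hxy
    have hJ' : J = {α₀} ∨ J = {α₀}ᶜ := by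
      have : J ∈ ({{α₀}, {α₀}ᶜ} : Finset (Finset (Fin 3))) := hJ
      simpa using this
    dsimp only
    rcases hJ' with rfl | rfl
    · rw [if_pos rfl, if_pos rfl, hxy α₀ (by simp)]
    · rw [if_neg (ne_compl_of_nonempty h1).symm, if_neg (ne_compl_of_nonempty h1).symm]
      apply hg
      intro β hβ
      apply hxy
      have : β ≠ α₀ := hβ
      simp [this]
  · intro x
    show f (x α₀) * g x = ∏ J ∈ ({{α₀}, {α₀}ᶜ} : Finset (Finset (Fin 3))),
      if J = {α₀} then f (x α₀) else g x
    rw [Finset.prod_pair (ne_compl_of_nonempty h1), if_pos rfl,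
      if_neg (ne_compl_of_nonempty h1).symm]

/-- independent rows: an invertible square submatrix -/
lemma R2_cols {Y : Type} {l : ℕ} (v : Fin l → Y → K) (hv : LinearIndependent K v) :
    ∃ y : Fin l → Y, IsUnit (Matrix.of fun i j => v i (y j)) := by
  classical
  obtain ⟨κ, a, ha, hsp, hli⟩ := exists_linearIndependent' K (fun (y : Y) (i : Fin l) => v i y)
  have htop : Submodule.span K (Set.range (fun (y : Y) (i : Fin l) => v i y)) = ⊤ := by
    by_contra hne
    obtain ⟨φ, hφ, hle⟩ := Submodule.exists_le_ker_of_lt_top _ (lt_top_iff_ne_top.2 hne)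
    apply hφ
    have h1 : ∀ w : Fin l → K, φ w = ∑ i, w i * φ (Pi.single i 1) := by
      intro w
      conv_lhs => rw [← Finset.univ_sum_single w]
      rw [map_sum]
      refine Finset.sum_congr rfl fun i _ => ?_
      rw [show Pi.single i (w i) = w i • (Pi.single i 1 : Fin l → K) by
        rw [← Pi.single_smul, smul_eq_mul, mul_one], map_smul, smul_eq_mul]
    have h2 : ∑ i, φ (Pi.single i 1) • v i = 0 := by
      funext y
      have h3 := hle (Submodule.subset_span ⟨y, rfl⟩)
      rw [LinearMap.mem_ker, h1] at h3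
      rw [Finset.sum_apply, Pi.zero_apply, ← h3]
      refine Finset.sum_congr rfl fun i _ => ?_
      rw [Pi.smul_apply, smul_eq_mul, mul_comm]
    have h4 := Fintype.linearIndependent_iff.1 hv _ h2
    apply LinearMap.ext
    intro w
    rw [h1]
    simp [h4]
  rw [htop] at hsp
  let B : Module.Basis κ K (Fin l → K) := Module.Basis.mk hli hsp.ge
  have hfin : Finite κ := Module.Finite.finite_basis B
  haveI := Fintype.ofFinite κ
  have hcard : Fintype.card κ = l := by
    rw [← Module.finrank_eq_card_basis B, Module.finrank_fin_fun]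
  let e : Fin l ≃ κ := (Fintype.equivFinOfCardEq hcard).symm
  refine ⟨fun j => a (e j), ?_⟩
  rw [← Matrix.linearIndependent_cols_iff_isUnit]
  exact hli.comp e e.injective

lemma R2_le_rank {R : Set (IndexPartition 3)} {Q' : Fin 3 → Type} {T : ((α : Fin 3) → Q' α) → K}
    {l : ℕ} (h : ∀ k, SumOf R T k → l ≤ k) : (l : ℕ∞) ≤ rank R T := by
  refine le_sInf ?_
  rintro _ ⟨k, rfl, hk⟩
  exact_mod_cast h k hk

end

theorem R2 : R2_stmt := by
  classical
  intro α K _ Q _ T l hl
  rcases Nat.eq_zero_or_pos l with hl0 | hl0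
  · subst hl0
    exact ⟨fun _ => ∅, fun _ => by simp, by simp⟩
  -- a basis of the rows
  obtain ⟨κ, a, ha, hsp, hli⟩ := exists_linearIndependent' K
    (fun (q : Q α) (x : (β : Fin 3) → Q β) => T (Function.update x α q))
  haveI : Finite κ := Finite.of_injective a ha
  letI := Fintype.ofFinite κ
  have h1 : ∀ q : Q α, ∃ c : κ → K, ∀ x : (β : Fin 3) → Q β,
      T (Function.update x α q) = ∑ i, c i * T (Function.update x α (a i)) := by
    intro q
    have h2 : (fun (x : (β : Fin 3) → Q β) => T (Function.update x α q)) ∈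
        Submodule.span K (Set.range ((fun (q : Q α) (x : (β : Fin 3) → Q β) =>
          T (Function.update x α q)) ∘ a)) := by
      rw [hsp]
      exact Submodule.subset_span ⟨q, rfl⟩
    obtain ⟨c, hc⟩ := (Submodule.mem_span_range_iff_exists_fun _).1 h2
    refine ⟨c, fun x => ?_⟩
    have h3 := congrFun hc x
    rw [Finset.sum_apply] at h3
    rw [← h3]
    rfl
  choose c hc using h1
  have hT : ∀ x, T x = ∑ i, c (x α) i * T (Function.update x α (a i)) := by
    intro x
    have h4 := hc (x α) x
    rwa [Function.update_eq_self] at h4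
  have hsum : SumOf (slicesOf {α}) T (univ : Finset κ).card := by
    apply SumOf.of_finset (univ : Finset κ) (fun i x => c (x α) i * T (Function.update x α (a i)))
    · intro i _
      apply R2_rank1' α (fun q => c q i) (fun x => T (Function.update x α (a i)))
      intro x y hxy
      dsimp only
      congr 1
      funext β
      by_cases h : β = α
      · subst h
        rw [Function.update_self, Function.update_self]
      · rw [Function.update_of_ne h, Function.update_of_ne h]
        exact hxy β h
    · exact hT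
  have hcard : l ≤ Fintype.card κ := by
    have h5 : (l : ℕ∞) ≤ (univ : Finset κ).card := hl.trans (rank_le_of_sumOf hsum)
    rw [Finset.card_univ] at h5
    exact_mod_cast h5
  -- `l` independent rows
  obtain ⟨e⟩ : Nonempty (Fin l ↪ κ) := by
    apply Function.Embedding.nonempty_of_card_le
    rw [Fintype.card_fin]
    exact hcard
  obtain ⟨y, hy⟩ := R2_cols _ (hli.comp e e.injective)
  set W : Fin l × Fin l → (β : Fin 3) → Q β :=
    fun p => Function.update (y p.2) α (a (e p.1)) with hW
  refine ⟨fun β => univ.image (fun p => W p β), ?_, ?_⟩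
  · intro β
    by_cases h : β = α
    · subst h
      have h1 : univ.image (fun p => W p β) ⊆ univ.image (fun i : Fin l => a (e i)) := by
        intro q hq
        rw [Finset.mem_image] at hq
        obtain ⟨p, -, hp⟩ := hq
        rw [Finset.mem_image]
        exact ⟨p.1, Finset.mem_univ _, by rw [← hp, hW]; exact (Function.update_self _ _ _).symm⟩
      refine (Finset.card_le_card h1).trans (Finset.card_image_le.trans ?_)
      simp
    · have h1 : univ.image (fun p => W p β) ⊆ univ.image (fun j : Fin l => y j β) := by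
        intro q hq
        rw [Finset.mem_image] at hq
        obtain ⟨p, -, hp⟩ := hq
        rw [Finset.mem_image]
        exact ⟨p.2, Finset.mem_univ _, by rw [← hp, hW]; exact (Function.update_of_ne h _ _).symm⟩
      refine (Finset.card_le_card h1).trans (Finset.card_image_le.trans ?_)
      simp
  · apply R2_le_rank
    rintro k ⟨t, ht, hT⟩
    choose f g hg hf using fun s => R2_rank1 α (ht s)
    have hmem : ∀ p β, W p β ∈ univ.image (fun p => W p β) := fun p β =>
      Finset.mem_image_of_mem _ (Finset.mem_univ p)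
    let i0 : Fin l := ⟨0, hl0⟩
    let A : Matrix (Fin l) (Fin k) K := Matrix.of fun i s =>
      f s ⟨W (i, i0) α, hmem (i, i0) α⟩
    let B : Matrix (Fin k) (Fin l) K := Matrix.of fun s j =>
      g s (fun β => ⟨W (i0, j) β, hmem (i0, j) β⟩)
    have hAB : (Matrix.of fun i j => T (Function.update (y j) α (a (e i)))) = A * B := by
      ext i j
      have h1 := hT (fun β => ⟨W (i, j) β, hmem (i, j) β⟩)
      have h2 : minor T (fun β => univ.image (fun p => W p β))
          (fun β => ⟨W (i, j) β, hmem (i, j) β⟩) = T (Function.update (y j) α (a (e i))) := rfl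
      rw [h2] at h1
      rw [Matrix.of_apply, h1, Matrix.mul_apply]
      refine Finset.sum_congr rfl fun s _ => ?_
      rw [hf]
      have hWα : ∀ j', W (i, j') α = a (e i) := fun j' => Function.update_self _ _ _
      have hWβ : ∀ i' β, β ≠ α → W (i', j) β = y j β := fun i' β hβ => Function.update_of_ne hβ _ _
      congr 1
      · show f s _ = f s _
        congr 1
        apply Subtype.ext
        show W (i, j) α = W (i, i0) α
        rw [hWα, hWα]
      · show g s _ = g s _
        apply hg s
        intro β hβ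
        apply Subtype.ext
        show W (i, j) β = W (i0, j) β
        rw [hWβ i β hβ, hWβ i0 β hβ]
    have h5 : (Matrix.of fun i j => T (Function.update (y j) α (a (e i)))).rank = l := by
      have := Matrix.rank_of_isUnit _ hy
      rw [Fintype.card_fin] at this
      exact this
    rw [hAB] at h5
    rw [← h5]
    exact (Matrix.rank_mul_le_left A B).trans (Matrix.rank_le_width A)

end Pool.Agent.helper35.MR
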